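import Pool.Agent.R358.OSymMain

/-!
# The number of element orders of `Sym(n)` is at most `exp (sqrt n)` for every `n ≥ 1`
-/

set_option autoImplicit false

namespace Pool.Agent.Results.MP_bcad5b_nt.AllOrders

/-- For every positive integer `n`, the number of distinct orders of elements of the symmetric
group on `n` letters is at most `exp (sqrt n)`. -/
theorem result : ∀ n : ℕ, 0 < n →
    ((Set.range (fun σ : Equiv.Perm (Fin n) => orderOf σ)).ncard : ℝ) ≤
      Real.exp (Real.sqrt (n : ℝ)) :=
  fun n hn => Pool.Agent.R358.OSym.card_le_exp_sqrt n hn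

end Pool.Agent.Results.MP_bcad5b_nt.AllOrders
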